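import Mathlib
import Pool.Agent.Helper69_PN.Jet
import Pool.Agent.Helper3_PQE.Stmts

/-!
# Squad PQE: module Q-JET

As `PN.H69.jet`, with an arbitrary reserve `t`.
-/

set_option autoImplicit false

universe u

open MvPolynomial

namespace Pool.Agent.PQE.H87

open Pool.Agent.PN Pool.Agent.PN.H69

/-- Q-JET -/
theorem jet (hexi : ExiStmt.{u}) (hclo : CloStmt.{u}) (hspa : SpaStmt.{u})
    (hspn : SpnStmt.{u}) (hver : VerStmt.{u}) (hcoe : CoeStmt.{u}) :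
    Pool.Agent.PQE.JetStmt.{u} := by
  intro n hn
  obtain ⟨k, m, m', hk, hm', h⟩ := hexi n hn
  refine ⟨k, m, m', hk, hm', fun t => ⟨m + (6 + n) * m' + 1 + t, le_refl _, ?_⟩⟩
  obtain ⟨N₀, hN₀⟩ := h (m + (6 + n) * m' + 1 + t + (k + 1) * m)
  refine ⟨N₀, ?_⟩
  intro N hN
  obtain ⟨hB, P, hP0, hP⟩ := hN₀ N hN
  obtain ⟨F, hF0, hF⟩ := hcoe n N k P hP0
  refine ⟨(Nat.le_add_right _ _).trans hB, F, hF0, ?_⟩
  intro E _ _ a x hx1 hx0 hall
  refine hF a (fun l => PowerSeries.coeff 0 (x l)) ?_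
  intro q hq1 hq2
  exact van69 hclo hspa hspn hver hB P hP a x hx1 hx0 hall q hq1 hq2

end Pool.Agent.PQE.H87
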